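import Pool.Agent.H15.HLU.Targets

/-!
# IND: all steps of the weighted inflation
-/

set_option autoImplicit false

namespace Pool.Agent.H7.HLU

open Pool.Agent.H51.Homog Pool.Agent.H22.HSQ Pool.Agent.H15.HLS Pool.Agent.H15.HLU

/-- quadruples -/
private abbrev Q (m : ℕ) := Fin m × Fin m × Fin m × Fin m

private theorem steps (hSTP : T_STP) {m : ℕ} {L : Fin m → Fin m → Fin m} (hL : IsLatin L)
    (N : ℕ) (kill : Bool) (hN : 0 < N) (hN6 : Nat.Coprime N 6) (hk : kill = true → 1 < N)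
    (F : Finset (Q m)) :
    (∀ e ∈ F, e.2.2.1 ≠ e.1 ∧ e.2.2.2 ≠ e.2.1 ∧ L e.2.2.1 e.2.2.2 = L e.1 e.2.1 ∧
      L e.2.2.1 e.2.1 = L e.1 e.2.2.2) →
    ∀ (w : Fin m → Fin m → Fin m → Fin m → ℕ) (β : Type) [Fintype β] (π : β → Fin m)
      (L' : β → β → β), Lift L w π L' →
    ∃ (β' : Type) (_ : Fintype β') (π' : β' → Fin m) (L'' : β' → β' → β'),
      Fintype.card β' = Fintype.card β * N ^ F.card ∧
      Lift L (fun r k r' k' => w r k r' k' *
        ∏ e ∈ F, wt kill N e.1 e.2.1 e.2.2.1 e.2.2.2 r k r' k') π' L'' := by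
  classical
  induction F using Finset.induction_on with
  | empty =>
    intro _ w β _ π L' h
    refine ⟨β, inferInstance, π, L', by simp, ?_⟩
    simpa using h
  | insert e F he ih =>
    intro hF w β _ π L' h
    haveI : NeZero N := ⟨hN.ne'⟩
    obtain ⟨h1, h2, h3, h4⟩ := hF e (Finset.mem_insert_self e F)
    obtain ⟨L1, hL1⟩ := hSTP (Fin m) β L w π L' hL h e.1 e.2.1 e.2.2.1 e.2.2.2 h1 h2 h3 h4 N kill
      hN hN6 hk
    obtain ⟨β', hβ', π', L'', hc, hl⟩ := ih (fun e' he' => hF e' (Finset.mem_insert_of_mem he'))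
      _ (β × ZMod N) _ L1 hL1
    refine ⟨β', hβ', π', L'', ?_, ?_⟩
    · rw [hc, Fintype.card_prod, ZMod.card, Finset.card_insert_of_notMem he, pow_succ]
      ring
    · have h5 : (fun r k r' k' => w r k r' k' *
          ∏ e' ∈ insert e F, wt kill N e'.1 e'.2.1 e'.2.2.1 e'.2.2.2 r k r' k') =
          fun r k r' k' => w r k r' k' * wt kill N e.1 e.2.1 e.2.2.1 e.2.2.2 r k r' k' *
            ∏ e' ∈ F, wt kill N e'.1 e'.2.1 e'.2.2.1 e'.2.2.2 r k r' k' := by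
        funext r k r' k'
        rw [Finset.prod_insert he, mul_assoc]
      rw [h5]
      exact hl

private theorem lift_congr {α β : Type} {L : α → α → α} {w w' : α → α → α → α → ℕ} {π : β → α}
    {L' : β → β → β} (h : Lift L w π L')
    (hw : ∀ r k r' k', r' ≠ r → k' ≠ k → L r' k' = L r k → L r' k = L r k' →
      w r k r' k' = w' r k r' k') : Lift L w' π L' where
  latin := h.latin
  proj := h.proj
  row := h.row
  cnt := by
    intro x y r' k' h1 h2 h3 h4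
    rw [h.cnt x y r' k' h1 h2 h3 h4, hw _ _ _ _ h1 h2 h3 h4]

private theorem start {m : ℕ} {L : Fin m → Fin m → Fin m} (hL : IsLatin L) :
    Lift L (fun _ _ _ _ => 1) (id : Fin m → Fin m) L where
  latin := hL
  proj := fun _ _ => rfl
  row := fun x y x' y' h1 h2 _ _ => ⟨h1, h2⟩
  cnt := by
    intro x y r' k' h1 h2 h3 h4
    have h5 : {p : Fin m × Fin m | id p.1 = r' ∧ id p.2 = k' ∧ L p.1 p.2 = L x y ∧
        L p.1 y = L x p.2} = {(r', k')} := by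
      ext ⟨a, b⟩
      simp only [id, Set.mem_setOf_eq, Set.mem_singleton_iff, Prod.mk.injEq]
      constructor
      · rintro ⟨ha, hb, -, -⟩
        exact ⟨ha, hb⟩
      · rintro ⟨rfl, rfl⟩
        exact ⟨rfl, rfl, h3, h4⟩
    rw [h5, Set.ncard_singleton]

/-- the ordered presentation -/
private def st {m : ℕ} (r k r' k' : Fin m) : Q m := (min r r', min k k', max r r', max k k')

/-- properties that are invariant under the exchange of the rows and of the columns -/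
private theorem st_cases {m : ℕ} {P : Fin m → Fin m → Fin m → Fin m → Prop}
    (hr : ∀ {r c r' c' : Fin m}, P r c r' c' → P r' c r c')
    (hc : ∀ {r c r' c' : Fin m}, P r c r' c' → P r c' r' c) (r k r' k' : Fin m) :
    P (st r k r' k').1 (st r k r' k').2.1 (st r k r' k').2.2.1 (st r k r' k').2.2.2 ↔
      P r k r' k' := by
  unfold st
  rcases le_total r r' with h1 | h1 <;> rcases le_total k k' with h2 | h2
  · rw [min_eq_left h1, max_eq_right h1, min_eq_left h2, max_eq_right h2]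
  · rw [min_eq_left h1, max_eq_right h1, min_eq_right h2, max_eq_left h2]
    exact ⟨fun h => hc h, fun h => hc h⟩
  · rw [min_eq_right h1, max_eq_left h1, min_eq_left h2, max_eq_right h2]
    exact ⟨fun h => hr h, fun h => hr h⟩
  · rw [min_eq_right h1, max_eq_left h1, min_eq_right h2, max_eq_left h2]
    exact ⟨fun h => hr (hc h), fun h => hr (hc h)⟩

private theorem same_iff {m : ℕ} (r k r' k' : Fin m) (hr : r' ≠ r) (hk : k' ≠ k) (e : Q m)
    (h1 : e.1 < e.2.2.1) (h2 : e.2.1 < e.2.2.2) :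
    Same e.1 e.2.1 e.2.2.1 e.2.2.2 r k r' k' ↔ e = st r k r' k' := by
  obtain ⟨a, c, a₁, c₁⟩ := e
  simp only [st, Prod.mk.injEq]
  unfold Same
  simp only at h1 h2
  constructor
  · rintro ⟨h3, h4⟩
    have h5 : a = min r r' ∧ a₁ = max r r' := by
      rcases h3 with ⟨rfl, rfl⟩ | ⟨rfl, rfl⟩
      · exact ⟨(min_eq_left h1.le).symm, (max_eq_right h1.le).symm⟩
      · exact ⟨(min_eq_right h1.le).symm, (max_eq_left h1.le).symm⟩
    have h6 : c = min k k' ∧ c₁ = max k k' := by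
      rcases h4 with ⟨rfl, rfl⟩ | ⟨rfl, rfl⟩
      · exact ⟨(min_eq_left h2.le).symm, (max_eq_right h2.le).symm⟩
      · exact ⟨(min_eq_right h2.le).symm, (max_eq_left h2.le).symm⟩
    exact ⟨h5.1, h6.1, h5.2, h6.2⟩
  · rintro ⟨rfl, rfl, rfl, rfl⟩
    refine ⟨?_, ?_⟩
    · rcases le_total r r' with h | h
      · rw [min_eq_left h, max_eq_right h]
        exact Or.inl ⟨rfl, rfl⟩
      · rw [min_eq_right h, max_eq_left h]
        exact Or.inr ⟨rfl, rfl⟩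
    · rcases le_total k k' with h | h
      · rw [min_eq_left h, max_eq_right h]
        exact Or.inl ⟨rfl, rfl⟩
      · rw [min_eq_right h, max_eq_left h]
        exact Or.inr ⟨rfl, rfl⟩

open Classical in
private theorem prod_wt {m : ℕ} (r k r' k' : Fin m) (hr : r' ≠ r) (hk : k' ≠ k) (kill : Bool)
    (N : ℕ) (F : Finset (Q m)) (hF : ∀ e ∈ F, e.1 < e.2.2.1 ∧ e.2.1 < e.2.2.2) :
    ∏ e ∈ F, wt kill N e.1 e.2.1 e.2.2.1 e.2.2.2 r k r' k' =
      if st r k r' k' ∈ F then (if kill then 0 else N) else 1 := by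
  have h1 : ∏ e ∈ F, wt kill N e.1 e.2.1 e.2.2.1 e.2.2.2 r k r' k' =
      ∏ e ∈ F, if e = st r k r' k' then (if kill then 0 else N) else 1 := by
    refine Finset.prod_congr rfl fun e he => ?_
    unfold wt
    by_cases h : e = st r k r' k'
    · rw [if_pos h, if_pos ((same_iff r k r' k' hr hk e (hF e he).1 (hF e he).2).2 h)]
    · rw [if_neg h, if_neg fun h' => h ((same_iff r k r' k' hr hk e (hF e he).1 (hF e he).2).1 h')]
  rw [h1, Finset.prod_ite_eq']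

theorem pf_IND (hSTP : T_STP) : T_IND := by
  classical
  intro m L S₀ S₁ hL h0 h1 _
  let B : Finset (Q m) := Finset.univ.filter fun e => e.1 < e.2.2.1 ∧ e.2.1 < e.2.2.2 ∧
    S₁ e.1 e.2.1 e.2.2.1 e.2.2.2
  let K : Finset (Q m) := Finset.univ.filter fun e => e.1 < e.2.2.1 ∧ e.2.1 < e.2.2.2 ∧
    (L e.2.2.1 e.2.2.2 = L e.1 e.2.1 ∧ L e.2.2.1 e.2.1 = L e.1 e.2.2.2) ∧
    ¬ S₀ e.1 e.2.1 e.2.2.1 e.2.2.2 ∧ ¬ S₁ e.1 e.2.1 e.2.2.1 e.2.2.2
  have hB : ∀ e, e ∈ B ↔ e.1 < e.2.2.1 ∧ e.2.1 < e.2.2.2 ∧ S₁ e.1 e.2.1 e.2.2.1 e.2.2.2 := by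
    intro e
    simp only [B, Finset.mem_filter, Finset.mem_univ, true_and]
  have hK : ∀ e, e ∈ K ↔ e.1 < e.2.2.1 ∧ e.2.1 < e.2.2.2 ∧
      (L e.2.2.1 e.2.2.2 = L e.1 e.2.1 ∧ L e.2.2.1 e.2.1 = L e.1 e.2.2.2) ∧
      ¬ S₀ e.1 e.2.1 e.2.2.1 e.2.2.2 ∧ ¬ S₁ e.1 e.2.1 e.2.2.1 e.2.2.2 := by
    intro e
    simp only [K, Finset.mem_filter, Finset.mem_univ, true_and]
  refine ⟨B.card, K.card, fun y q hy hy6 hq hq6 => ?_⟩
  obtain ⟨β₁, hβ₁, π₁, L₁, hc₁, hl₁⟩ := steps hSTP hL y false hy hy6 (by simp) B (fun e he => by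
    obtain ⟨h2, h3, h4⟩ := (hB e).1 he
    exact ⟨h2.ne', h3.ne', h1.diag h4, h1.anti h4⟩) _ (Fin m) id L (start hL)
  obtain ⟨β₂, hβ₂, π₂, L₂, hc₂, hl₂⟩ := steps hSTP hL q true (by omega) hq6 (fun _ => hq) K
    (fun e he => by
      obtain ⟨h2, h3, ⟨h4, h5⟩, -⟩ := (hK e).1 he
      exact ⟨h2.ne', h3.ne', h4, h5⟩) _ β₁ π₁ L₁ hl₁
  refine ⟨β₂, hβ₂, π₂, L₂, ?_, lift_congr hl₂ ?_⟩
  · rw [hc₂, hc₁, Fintype.card_fin]
  intro r k r' k' hr hk hd ha
  show 1 * (∏ e ∈ B, wt false y e.1 e.2.1 e.2.2.1 e.2.2.2 r k r' k') *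
    (∏ e ∈ K, wt true q e.1 e.2.1 e.2.2.1 e.2.2.2 r k r' k') = w01 S₀ S₁ y r k r' k'
  rw [prod_wt r k r' k' hr hk false y B (fun e he => ⟨((hB e).1 he).1, ((hB e).1 he).2.1⟩),
    prod_wt r k r' k' hr hk true q K (fun e he => ⟨((hK e).1 he).1, ((hK e).1 he).2.1⟩)]
  have hlt : (st r k r' k').1 < (st r k r' k').2.2.1 ∧ (st r k r' k').2.1 < (st r k r' k').2.2.2 :=
    ⟨min_lt_max.2 hr.symm, min_lt_max.2 hk.symm⟩
  have hs0 := st_cases (P := S₀) h0.swap_row h0.swap_col r k r' k'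
  have hs1 := st_cases (P := S₁) h1.swap_row h1.swap_col r k r' k'
  have hsL := st_cases (P := fun r k r' k' => L r' k' = L r k ∧ L r' k = L r k')
    (fun h => ⟨h.2.symm, h.1.symm⟩) (fun h => ⟨h.2, h.1⟩) r k r' k'
  have hB' : st r k r' k' ∈ B ↔ S₁ r k r' k' := by
    rw [hB, hs1]
    exact ⟨fun h => h.2.2, fun h => ⟨hlt.1, hlt.2, h⟩⟩
  have hK' : st r k r' k' ∈ K ↔ ¬ S₀ r k r' k' ∧ ¬ S₁ r k r' k' := by
    rw [hK, hs0, hs1]
    exact ⟨fun h => h.2.2.2, fun h => ⟨hlt.1, hlt.2, hsL.2 ⟨hd, ha⟩, h⟩⟩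
  unfold w01
  simp only [hB', hK']
  by_cases hS1 : S₁ r k r' k' <;> by_cases hS0 : S₀ r k r' k' <;> simp [hS0, hS1]

end Pool.Agent.H7.HLU
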